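import Mathlib

/-!
# The residue cocycle: combinatorics of the strata of an snc divisor

`Strata`: the connected strata of an snc divisor with their faces.  From the relations
`SUM_j +- m_j c_(J-j) = 0` and the Gysin relations `SUM_j +- c_(K+j) A.E_(K+j) = 0` the cochain
`c_I / m_I` is closed and not exact unless all `c_I` vanish.
-/

set_option autoImplicit false

namespace Pool.Agent.H19.RC

open Finset
open scoped BigOperators ComplexConjugate

/-- connected strata of an snc divisor: `S k` the strata of codimension `k` (`S 0`: the ambient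
manifold), `face` the strata of codimension one less containing a given one, `vert` the components
through it in increasing order -/
structure Strata where
  /-- the components -/
  ι : Type
  /-- strata of codimension `k` -/
  S : ℕ → Type
  fin : ∀ k, Fintype (S k)
  dec : ∀ k, DecidableEq (S k)
  /-- faces -/
  face : ∀ k, S (k + 1) → Fin (k + 1) → S k
  /-- the components through a stratum -/
  vert : ∀ k, S k → Fin k → ι
  vert_face : ∀ k (J : S (k + 1)) (j : Fin (k + 1)) (i : Fin k),
    vert k (face k J j) i = vert (k + 1) J (j.succAbove i)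

namespace Strata

variable (X : Strata)

instance (k : ℕ) : Fintype (X.S k) := X.fin k

instance (k : ℕ) : DecidableEq (X.S k) := X.dec k

/-- product of the multiplicities of the components through a stratum -/
noncomputable def mult (m : X.ι → ℝ) (k : ℕ) (I : X.S k) : ℝ := ∏ i, m (X.vert k I i)

/-- the coboundary of a cochain -/
noncomputable def co (k : ℕ) (β : X.S k → ℂ) (J : X.S (k + 1)) : ℂ :=
  ∑ j : Fin (k + 1), (-1 : ℂ) ^ (j : ℕ) * β (X.face k J j)

lemma mult_pos {m : X.ι → ℝ} (hm : ∀ i, 0 < m i) (k : ℕ) (I : X.S k) : 0 < X.mult m k I :=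
  Finset.prod_pos fun _ _ => hm _

lemma mult_face (m : X.ι → ℝ) (k : ℕ) (J : X.S (k + 1)) (j : Fin (k + 1)) :
    X.mult m (k + 1) J = m (X.vert (k + 1) J j) * X.mult m k (X.face k J j) := by
  unfold mult
  rw [Fin.prod_univ_succAbove _ j]
  congr 1
  exact Finset.prod_congr rfl fun i _ => by rw [X.vert_face]

/-- the cochain `c_I / m_I` -/
noncomputable def al (m : X.ι → ℝ) (k : ℕ) (c : X.S k → ℂ) (I : X.S k) : ℂ :=
  c I / (X.mult m k I : ℝ)

/-- the residue relation makes `c_I / m_I` closed -/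
theorem co_al {m : X.ι → ℝ} (hm : ∀ i, 0 < m i) (k : ℕ) (c : X.S k → ℂ)
    (hc : ∀ J : X.S (k + 1), ∑ j : Fin (k + 1),
      (-1 : ℂ) ^ (j : ℕ) * ((m (X.vert (k + 1) J j) : ℝ) * c (X.face k J j)) = 0)
    (J : X.S (k + 1)) : X.co k (X.al m k c) J = 0 := by
  have hJ : ((X.mult m (k + 1) J : ℝ) : ℂ) ≠ 0 := by
    exact_mod_cast (X.mult_pos hm (k + 1) J).ne'
  have h : (X.mult m (k + 1) J : ℝ) * X.co k (X.al m k c) J = 0 := by
    rw [← hc J, co, Finset.mul_sum]
    refine Finset.sum_congr rfl fun j _ => ?_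
    have hf : ((X.mult m k (X.face k J j) : ℝ) : ℂ) ≠ 0 := by
      exact_mod_cast (X.mult_pos hm k (X.face k J j)).ne'
    rw [al, X.mult_face m k J j]
    push_cast
    field_simp
  exact (mul_eq_zero.1 h).resolve_left hJ

/-- the pairing of a coboundary with the cycle `conj (c_I) A_I` vanishes -/
theorem pair_co (k : ℕ) (c : X.S (k + 1) → ℂ) (A : X.S (k + 1) → ℝ)
    (hg : ∀ K : X.S k, ∑ I : X.S (k + 1), ∑ j : Fin (k + 1),
      (if X.face k I j = K then (-1 : ℂ) ^ (j : ℕ) * (c I * (A I : ℝ)) else 0) = 0)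
    (β : X.S k → ℂ) : ∑ I, X.co k β I * (conj (c I) * (A I : ℝ)) = 0 := by
  have h1 : ∀ K : X.S k, ∑ I : X.S (k + 1), ∑ j : Fin (k + 1),
      (if X.face k I j = K then (-1 : ℂ) ^ (j : ℕ) * (conj (c I) * (A I : ℝ)) else 0) = 0 := by
    intro K
    have h := congrArg conj (hg K)
    rw [map_zero] at h
    refine Eq.trans ?_ h
    rw [map_sum]
    refine Finset.sum_congr rfl fun I _ => ?_
    rw [map_sum]
    refine Finset.sum_congr rfl fun j _ => ?_
    split_ifs
    · simp
    · simp
  calc ∑ I, X.co k β I * (conj (c I) * (A I : ℝ))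
      = ∑ I, ∑ K : X.S k, ∑ j : Fin (k + 1), β K *
          (if X.face k I j = K then (-1 : ℂ) ^ (j : ℕ) * (conj (c I) * (A I : ℝ)) else 0) := by
        refine Finset.sum_congr rfl fun I _ => ?_
        rw [co, Finset.sum_mul, Finset.sum_comm]
        refine Finset.sum_congr rfl fun j _ => ?_
        simp only [mul_ite, mul_zero, Finset.sum_ite_eq, Finset.mem_univ, if_true]
        ring
    _ = ∑ K : X.S k, β K * ∑ I : X.S (k + 1), ∑ j : Fin (k + 1),
          (if X.face k I j = K then (-1 : ℂ) ^ (j : ℕ) * (conj (c I) * (A I : ℝ)) else 0) := by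
        rw [Finset.sum_comm]
        simp only [Finset.mul_sum]
    _ = 0 := by simp [h1]

/-- `c_I / m_I` is not a coboundary unless all `c_I` vanish -/
theorem not_exact {m : X.ι → ℝ} (hm : ∀ i, 0 < m i) (k : ℕ) (c : X.S (k + 1) → ℂ)
    (A : X.S (k + 1) → ℝ) (hA : ∀ I, 0 < A I)
    (hg : ∀ K : X.S k, ∑ I : X.S (k + 1), ∑ j : Fin (k + 1),
      (if X.face k I j = K then (-1 : ℂ) ^ (j : ℕ) * (c I * (A I : ℝ)) else 0) = 0)
    (β : X.S k → ℂ) (h : ∀ I, X.co k β I = X.al m (k + 1) c I) (I : X.S (k + 1)) : c I = 0 := by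
  have h1 := X.pair_co k c A hg β
  have h2 : ∑ I, (‖c I‖ ^ 2 * A I / X.mult m (k + 1) I) = 0 := by
    have e : ((∑ I, (‖c I‖ ^ 2 * A I / X.mult m (k + 1) I) : ℝ) : ℂ) = 0 := by
      rw [← h1]
      push_cast
      refine Finset.sum_congr rfl fun I _ => ?_
      rw [h I, al]
      have e2 : ((‖c I‖ : ℝ) : ℂ) ^ 2 = c I * conj (c I) := by
        rw [Complex.mul_conj, Complex.normSq_eq_norm_sq]
        push_cast
        ring
      rw [e2]
      ring
    exact_mod_cast e
  have h3 := (Finset.sum_eq_zero_iff_of_nonneg fun I _ => by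
    have := X.mult_pos hm (k + 1) I
    have := hA I
    positivity).1 h2 I (Finset.mem_univ I)
  have h4 := X.mult_pos hm (k + 1) I
  have h5 := hA I
  have h6 : ‖c I‖ ^ 2 = 0 := by
    rcases div_eq_zero_iff.1 h3 with h | h
    · exact (mul_eq_zero.1 h).resolve_right h5.ne'
    · exact absurd h h4.ne'
  exact norm_eq_zero.1 ((pow_eq_zero_iff two_ne_zero).1 h6)

/-- the log identity: the residues live on the strata of degree zero -/
theorem supp_of_log {m : X.ι → ℝ} (hm : ∀ i, 0 < m i) (k : ℕ) (c : X.S k → ℂ)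
    (B : X.S k → ℝ) (hB : ∀ I, 0 ≤ B I) (hlog : ∑ I, ‖c I‖ ^ 2 / X.mult m k I * B I = 0)
    (I : X.S k) (hI : c I ≠ 0) : B I = 0 := by
  have h3 := (Finset.sum_eq_zero_iff_of_nonneg fun I _ => by
    have := X.mult_pos hm k I
    have := hB I
    positivity).1 hlog I (Finset.mem_univ I)
  have h4 := X.mult_pos hm k I
  refine (mul_eq_zero.1 h3).resolve_left ?_
  have : 0 < ‖c I‖ := norm_pos_iff.2 hI
  positivity

end Strata

end Pool.Agent.H19.RC
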