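import Mathlib

/-!
# The edge of a double complex

If every class of `E_2^(p,q)`, `q ≥ 1`, extends to a total cocycle, then an element of the row
`q = 0` which is a total coboundary is the coboundary of an element of the row `q = 0`.
-/

set_option autoImplicit false

namespace Pool.Agent.H19.RC

/-- a double complex of complex vector spaces with anticommuting differentials -/
structure Double where
  C : ℕ → ℕ → Type
  grp : ∀ p q, AddCommGroup (C p q)
  mod : ∀ p q, Module ℂ (C p q)
  δ : ∀ p q, C p q →ₗ[ℂ] C (p + 1) q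
  d : ∀ p q, C p q →ₗ[ℂ] C p (q + 1)
  δδ : ∀ p q x, δ (p + 1) q (δ p q x) = 0
  dd : ∀ p q x, d p (q + 1) (d p q x) = 0
  anti : ∀ p q x, δ p (q + 1) (d p q x) + d (p + 1) q (δ p q x) = 0

namespace Double

variable (K : Double)

instance (p q : ℕ) : AddCommGroup (K.C p q) := K.grp p q

instance (p q : ℕ) : Module ℂ (K.C p q) := K.mod p q

/-- total cochains -/
abbrev Tot := ∀ p q, K.C p q

/-- the total differential -/
def D (x : K.Tot) : K.Tot
  | 0, 0 => 0
  | p + 1, 0 => K.δ p 0 (x p 0)
  | 0, q + 1 => K.d 0 q (x 0 q)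
  | p + 1, q + 1 => K.δ p (q + 1) (x p (q + 1)) + K.d (p + 1) q (x (p + 1) q)

/-- homogeneous of degree `N` -/
def Homog (N : ℕ) (x : K.Tot) : Prop := ∀ p q, p + q ≠ N → x p q = 0

/-- total cocycle -/
def Cocycle (x : K.Tot) : Prop := ∀ p q, K.D x p q = 0

lemma D_add (x y : K.Tot) (p q : ℕ) : K.D (x + y) p q = K.D x p q + K.D y p q := by
  rcases p with _ | p <;> rcases q with _ | q
  · simp [D]
  · simp [D]
  · simp [D]
  · simp only [D, Pi.add_apply, map_add]
    abel

lemma D_neg (x : K.Tot) (p q : ℕ) : K.D (-x) p q = -K.D x p q := by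
  rcases p with _ | p <;> rcases q with _ | q
  · simp [D]
  · simp [D]
  · simp [D]
  · simp only [D, Pi.neg_apply, map_neg]
    abel

lemma D_D (x : K.Tot) (p q : ℕ) : K.D (K.D x) p q = 0 := by
  rcases p with _ | _ | p <;> rcases q with _ | _ | q
  · simp [D]
  · simp [D]
  · simp [D, K.dd]
  · simp [D]
  · simpa [D] using K.anti 0 0 (x 0 0)
  · simpa [D, K.dd] using K.anti 0 (q + 1) (x 0 (q + 1))
  · simp [D, K.δδ]
  · simpa [D, K.δδ] using K.anti (p + 1) 0 (x (p + 1) 0)
  · simp only [D, map_add, K.δδ, K.dd, zero_add, add_zero]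
    exact K.anti (p + 1) (q + 1) (x (p + 1) (q + 1))

/-- a total cochain concentrated in one bidegree -/
def sing (p q : ℕ) (x : K.C p q) : K.Tot := Pi.single p (Pi.single q x)

lemma sing_same (p q : ℕ) (x : K.C p q) : K.sing p q x p q = x := by
  simp [sing]

lemma sing_ne (p q : ℕ) (x : K.C p q) (p' q' : ℕ) (h : p' ≠ p ∨ q' ≠ q) :
    K.sing p q x p' q' = 0 := by
  unfold sing
  by_cases hp : p' = p
  · subst hp
    rw [Pi.single_eq_same]
    exact Pi.single_eq_of_ne (h.resolve_left (by simp)) _
  · rw [Pi.single_eq_of_ne hp]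
    rfl

lemma D_sing_d (p q : ℕ) (x : K.C p q) : K.D (K.sing p q x) p (q + 1) = K.d p q x := by
  rcases p with _ | p
  · simp only [D, sing_same]
  · simp only [D, sing_same]
    rw [K.sing_ne (p + 1) q x p (q + 1) (by omega), map_zero, zero_add]

lemma D_sing_ne (p q : ℕ) (x : K.C p q) (p' q' : ℕ) (h : (p' ≠ p ∨ q' ≠ q + 1) ∧
    (p' ≠ p + 1 ∨ q' ≠ q)) : K.D (K.sing p q x) p' q' = 0 := by
  rcases p' with _ | p' <;> rcases q' with _ | q'
  · simp [D]
  · simp only [D]
    rw [K.sing_ne p q x 0 q' (by omega), map_zero]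
  · simp only [D]
    rw [K.sing_ne p q x p' 0 (by omega), map_zero]
  · simp only [D]
    rw [K.sing_ne p q x p' (q' + 1) (by omega), K.sing_ne p q x (p' + 1) q' (by omega), map_zero,
      map_zero, add_zero]

/-- every class of `E_2^(p,q)`, `q ≥ 1`, is represented by the leading term of a total cocycle:
this is the degeneration at `E_2` -/
def Degenerate : Prop := ∀ p q (x : K.C p (q + 1)), K.d p (q + 1) x = 0 →
  (∃ u : K.C (p + 1) q, K.δ p (q + 1) x = K.d (p + 1) q u) →
  ∃ y : K.Tot, K.Homog (p + q + 1) y ∧ K.Cocycle y ∧ (∀ p' q', q + 1 < q' → y p' q' = 0) ∧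
    ∃ w : K.C p q, y p (q + 1) = x + K.d p q w

/-- an element of the row `0`, as a total cochain of degree `N` -/
lemma edge_aux (hK : K.Degenerate) (N : ℕ) (a : K.C (N + 1) 0) (Q : ℕ) :
    ∀ x : K.Tot, K.Homog N x → (∀ p q, Q < q → x p q = 0) →
      (∀ p q, K.D x p q = K.sing (N + 1) 0 a p q) →
      ∃ b : K.C N 0, K.d N 0 b = 0 ∧ K.δ N 0 b = a := by
  induction Q with
  | zero =>
    intro x hx hrow hD
    refine ⟨x N 0, ?_, ?_⟩
    · have h1 := hD N 1
      rw [K.sing_ne _ _ _ _ _ (by omega)] at h1
      rcases N with _ | N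
      · simpa [D] using h1
      · simp only [D] at h1
        rw [hrow N 1 (by omega), map_zero, zero_add] at h1
        exact h1
    · have h1 := hD (N + 1) 0
      rw [K.sing_same] at h1
      simpa [D] using h1
  | succ Q ih =>
    intro x hx hrow hD
    by_cases hQN : Q + 1 ≤ N
    · obtain ⟨p, hp⟩ : ∃ p, N = p + Q + 1 := ⟨N - Q - 1, by omega⟩
      subst hp
      have h1 : K.d p (Q + 1) (x p (Q + 1)) = 0 := by
        have h1 := hD p (Q + 2)
        rw [K.sing_ne _ _ _ _ _ (by omega)] at h1
        rcases p with _ | p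
        · simpa [D] using h1
        · simp only [D] at h1
          rw [hrow p (Q + 2) (by omega), map_zero, zero_add] at h1
          exact h1
      have h2 : K.δ p (Q + 1) (x p (Q + 1)) = K.d (p + 1) Q (-x (p + 1) Q) := by
        have h2 := hD (p + 1) (Q + 1)
        rw [K.sing_ne _ _ _ _ _ (by omega)] at h2
        simp only [D] at h2
        rw [map_neg]
        exact eq_neg_of_add_eq_zero_left h2
      obtain ⟨y, hy1, hy2, hy3, w, hw⟩ := hK p Q (x p (Q + 1)) h1 ⟨_, h2⟩
      refine ih (x + -y + K.D (K.sing p Q w)) ?_ ?_ ?_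
      · intro p' q' h
        simp only [Pi.add_apply, Pi.neg_apply]
        rw [hx p' q' h, hy1 p' q' h, K.D_sing_ne p Q w p' q' (by omega)]
        simp
      · intro p' q' h
        simp only [Pi.add_apply, Pi.neg_apply]
        by_cases hq : q' = Q + 1
        · subst hq
          by_cases hp' : p' = p
          · subst hp'
            rw [hw, K.D_sing_d]
            abel
          · rw [hx p' (Q + 1) (by omega), hy1 p' (Q + 1) (by omega),
              K.D_sing_ne p Q w p' (Q + 1) (by omega)]
            simp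
        · rw [hrow p' q' (by omega), hy3 p' q' (by omega), K.D_sing_ne p Q w p' q' (by omega)]
          simp
      · intro p' q'
        rw [D_add, D_add, D_neg, hy2 p' q', K.D_D, hD p' q']
        simp
    · refine ih x hx (fun p q hq => ?_) hD
      by_cases h : Q + 1 < q
      · exact hrow p q h
      · exact hx p q (by omega)

/-- the homogeneous part -/
def part (N : ℕ) (x : K.Tot) : K.Tot := fun p q => if p + q = N then x p q else 0

lemma D_part (N : ℕ) (x : K.Tot) (p q : ℕ) :
    K.D (K.part N x) p q = if p + q = N + 1 then K.D x p q else 0 := by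
  rcases p with _ | p <;> rcases q with _ | q
  · simp [D]
  · simp only [D, part]
    by_cases h : 0 + q = N
    · rw [if_pos h, if_pos (by omega)]
    · rw [if_neg h, if_neg (by omega), map_zero]
  · simp only [D, part]
    by_cases h : p + 0 = N
    · rw [if_pos h, if_pos (by omega)]
    · rw [if_neg h, if_neg (by omega), map_zero]
  · simp only [D, part]
    by_cases h : p + 1 + q = N
    · rw [if_pos (by omega), if_pos h, if_pos (by omega)]
    · rw [if_neg (by omega), if_neg h, if_neg (by omega), map_zero, map_zero, add_zero]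

/-- an element of the row `0` which is a total coboundary is a coboundary inside the row -/
theorem edge (hK : K.Degenerate) (N : ℕ) (a : K.C (N + 1) 0) (x : K.Tot)
    (hx : ∀ p q, K.D x p q = K.sing (N + 1) 0 a p q) :
    ∃ b : K.C N 0, K.d N 0 b = 0 ∧ K.δ N 0 b = a := by
  refine K.edge_aux hK N a N (K.part N x) ?_ ?_ ?_
  · intro p q h
    simp [part, h]
  · intro p q h
    simp only [part]
    rw [if_neg (by omega)]
  · intro p q
    rw [D_part]
    split_ifs with h
    · exact hx p q
    · rw [K.sing_ne _ _ _ _ _ (by omega)]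

end Double

end Pool.Agent.H19.RC
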