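import Pool.Agent.H19.RC.Cocycle
import Pool.Agent.H19.RC.Double

/-!
# The residue cocycle: end of the argument (worklog 3983 of MP_5ee2d0_ag, (3), (5) - (8))

Notation of 3983.  `n = N + 1`, `Y'` of dimension `2n`, `Delta'` the reduced snc divisor with
multiplicities `m`, `S k` the connected strata of codimension `k`, `c` the `n`-fold residues of the
logarithmic volume form.
-/

set_option autoImplicit false

namespace Pool.Agent.H19.RC

open scoped BigOperators

/-- parallel representatives of the cohomology classes (Wu's theorem on the strata): `V` continuous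
forms, `K.C` continuous forms with continuous `dbar`, `P` parallel forms on the strata, `Rep w x g`:
`w^ = x + dbar g` -/
structure Par (K : Double) where
  V : ℕ → ℕ → Type
  inc : ∀ p q, K.C p q → V p q
  zer : ∀ p q, V p q
  δV : ∀ p q, V p q → V (p + 1) q
  P : ℕ → ℕ → Type
  zP : ∀ p q, P p q
  δP : ∀ p q, P p q → P (p + 1) q
  /-- `w^ = x + dbar g`, `x` closed -/
  Rep : ∀ p q, P p (q + 1) → K.C p (q + 1) → V p q → Prop
  inc_δ : ∀ p q x, δV p q (inc p q x) = inc (p + 1) q (K.δ p q x)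
  inc_zero : ∀ p q x, inc p q x = zer p q → x = 0
  δVδV : ∀ p q g, δV (p + 1) q (δV p q g) = zer (p + 2) q
  /-- existence of the parallel representative -/
  rep_exists : ∀ p q x, K.d p (q + 1) x = 0 → ∃ w g, Rep p q w x g
  /-- uniqueness of the parallel representative -/
  rep_exact : ∀ p q w u g, Rep p q w (K.d p q u) g → w = zP p (q + 1)
  /-- restriction to strata -/
  rep_δ : ∀ p q w x g, Rep p q w x g →
    Rep (p + 1) q (δP p (q + 1) w) (K.δ p (q + 1) x) (δV p q g)
  /-- `0 = x + dbar g`: then `dbar g` is continuous -/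
  rep_zero : ∀ p q x g, Rep p q (zP p (q + 1)) x g → ∃ h, inc p q h = g ∧ K.d p q h = -x

/-- parallel representatives give the degeneration at `E_2` -/
theorem Par.degenerate {K : Double} (F : Par K) : K.Degenerate := by
  rintro p q x hx ⟨u, hu⟩
  obtain ⟨w, g, hw⟩ := F.rep_exists p q x hx
  have h1 := F.rep_δ p q w x g hw
  rw [hu] at h1
  have h2 := F.rep_exact _ _ _ _ _ h1
  rw [h2] at h1
  obtain ⟨h, hh, hd⟩ := F.rep_zero _ _ _ _ h1
  have hδ : K.δ (p + 1) q h = 0 := by
    apply F.inc_zero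
    rw [← F.inc_δ, hh, F.δVδV]
  refine ⟨K.sing p (q + 1) x + K.sing (p + 1) q h, ?_, ?_, ?_, 0, ?_⟩
  · intro p' q' hne
    simp only [Pi.add_apply]
    rw [K.sing_ne _ _ _ _ _ (by omega), K.sing_ne _ _ _ _ _ (by omega), add_zero]
  · intro p' q'
    rw [K.D_add]
    by_cases c1 : p' = p ∧ q' = q + 2
    · obtain ⟨rfl, rfl⟩ := c1
      rw [K.D_sing_d, hx, K.D_sing_ne _ _ _ _ _ (by omega), add_zero]
    · by_cases c2 : p' = p + 1 ∧ q' = q + 1
      · obtain ⟨rfl, rfl⟩ := c2
        rw [K.D_sing_d, hd]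
        simp only [Double.D]
        rw [K.sing_same, K.sing_ne _ _ _ _ _ (by omega), map_zero, add_zero, hu]
        exact add_neg_cancel _
      · by_cases c3 : p' = p + 2 ∧ q' = q
        · obtain ⟨rfl, rfl⟩ := c3
          rw [K.D_sing_ne p _ _ _ _ (by omega), zero_add]
          rcases q' with _ | q
          · simp only [Double.D]
            rw [K.sing_same, hδ]
          · simp only [Double.D]
            rw [K.sing_same, K.sing_ne _ _ _ _ _ (by omega), hδ, map_zero, add_zero]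
        · rw [K.D_sing_ne _ _ _ _ _ (by omega), K.D_sing_ne _ _ _ _ _ (by omega), add_zero]
  · intro p' q' hq
    simp only [Pi.add_apply]
    rw [K.sing_ne _ _ _ _ _ (by omega), K.sing_ne _ _ _ _ _ (by omega), add_zero]
  · simp only [Pi.add_apply, map_zero]
    rw [K.sing_same, K.sing_ne _ _ _ _ _ (by omega)]

/-- the data of the residue cocycle -/
structure Data (N : ℕ) where
  X : Strata
  /-- multiplicities -/
  m : X.ι → ℝ
  m_pos : ∀ i, 0 < m i
  /-- residues of the logarithmic volume form along the strata of codimension `n = N + 1` -/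
  c : X.S (N + 1) → ℂ
  /-- `A'^n.E_I` -/
  A : X.S (N + 1) → ℝ
  A_pos : ∀ I, 0 < A I
  /-- `L.A'^(n-1).E_I` -/
  B : X.S (N + 1) → ℝ
  B_nonneg : ∀ I, 0 ≤ B I
  /-- `L` is numerically trivial on the stratum -/
  triv : ∀ k, X.S k → Prop
  triv_face : ∀ k J j, triv k (X.face k J j) → triv (k + 1) J
  triv_of : ∀ I, B I = 0 → triv (N + 1) I
  /-- (2): the residues of `dlog s ^ f_vol` vanish -/
  rel : ∀ J : X.S (N + 2), ∑ j : Fin (N + 2),
    (-1 : ℂ) ^ (j : ℕ) * ((m (X.vert (N + 2) J j) : ℝ) * c (X.face (N + 1) J j)) = 0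
  /-- the residues of a logarithmic `1`-form on a stratum of codimension `n - 1` -/
  gysin : ∀ K : X.S N, ∑ I : X.S (N + 1), ∑ j : Fin (N + 1),
    (if X.face N I j = K then (-1 : ℂ) ^ (j : ℕ) * (c I * (A I : ℝ)) else 0) = 0
  /-- (3): the log identity with `R = A'^(n-1)` -/
  log : ∑ I, ‖c I‖ ^ 2 / X.mult m (N + 1) I * B I = 0
  /-- `(0,q)`-forms with values in `-kL` on the strata of codimension `p + 1` -/
  K : Double
  F : Par K
  /-- the sections of `-kL` on the strata on which `L` is numerically trivial -/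
  κ : ∀ p, (X.S (p + 1) → ℂ) →ₗ[ℂ] K.C p 0
  κ_inj : ∀ p β, (∀ I, ¬ triv (p + 1) I → β I = 0) → κ p β = 0 → β = 0
  κ_d : ∀ p β, (∀ I, ¬ triv (p + 1) I → β I = 0) → K.d p 0 (κ p β) = 0
  κ_δ : ∀ p β, (∀ I, ¬ triv (p + 1) I → β I = 0) →
    K.δ p 0 (κ p β) = κ (p + 1) (X.co (p + 1) β)
  κ_surj : ∀ p x, K.d p 0 x = 0 → ∃ β, (∀ I, ¬ triv (p + 1) I → β I = 0) ∧ κ p β = x
  /-- (1): `H^(n-1)(Delta', -kL) = 0` -/
  exact : ∀ y, K.Homog N y → K.Cocycle y → ∃ x, ∀ p q, K.D x p q = y p q

/-- all `n`-fold residues vanish -/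
theorem Data.residue_zero {N : ℕ} (T : Data N) (I : T.X.S (N + 1)) : T.c I = 0 := by
  obtain ⟨a, ha⟩ : ∃ a, a = T.X.al T.m (N + 1) T.c := ⟨_, rfl⟩
  have hsupp : ∀ I, ¬ T.triv (N + 1) I → a I = 0 := by
    intro I hI
    have hc : T.c I = 0 := by
      by_contra hc
      exact hI (T.triv_of I (T.X.supp_of_log T.m_pos (N + 1) T.c T.B T.B_nonneg T.log I hc))
    rw [ha, Strata.al, hc, zero_div]
  have hco : T.X.co (N + 1) a = 0 := by
    funext J
    rw [ha]
    exact T.X.co_al T.m_pos (N + 1) T.c T.rel J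
  have ha0 : a = 0 → T.c I = 0 := by
    intro h
    have h1 : a I = 0 := by rw [h]; rfl
    rw [ha, Strata.al, div_eq_zero_iff] at h1
    refine h1.resolve_right ?_
    exact_mod_cast (T.X.mult_pos T.m_pos (N + 1) I).ne'
  obtain ⟨x, hx⟩ := T.exact (T.K.sing N 0 (T.κ N a)) (fun p q h => T.K.sing_ne _ _ _ _ _ (by omega))
    (by
      intro p q
      by_cases c1 : p = N ∧ q = 1
      · obtain ⟨rfl, rfl⟩ := c1
        rw [T.K.D_sing_d, T.κ_d _ _ hsupp]
      · by_cases c2 : p = N + 1 ∧ q = 0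
        · obtain ⟨rfl, rfl⟩ := c2
          simp only [Double.D]
          rw [T.K.sing_same, T.κ_δ _ _ hsupp, hco, map_zero]
        · exact T.K.D_sing_ne _ _ _ _ _ (by omega))
  rcases N with _ | N
  · have h1 := hx 0 0
    rw [T.K.sing_same] at h1
    simp only [Double.D] at h1
    exact ha0 (T.κ_inj _ _ hsupp h1.symm)
  · obtain ⟨b, hb1, hb2⟩ := T.K.edge T.F.degenerate N (T.κ (N + 1) a) x hx
    obtain ⟨β, hβ, rfl⟩ := T.κ_surj N b hb1
    rw [T.κ_δ _ _ hβ] at hb2
    have h3 : T.X.co (N + 1) β - a = 0 := by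
      refine T.κ_inj (N + 1) _ ?_ ?_
      · intro J hJ
        rw [Pi.sub_apply, hsupp J hJ, sub_zero, Strata.co]
        refine Finset.sum_eq_zero fun j _ => ?_
        rw [hβ _ fun h => hJ (T.triv_face _ _ _ h), mul_zero]
      · rw [map_sub, hb2, sub_self]
    refine T.X.not_exact T.m_pos (N + 1) T.c T.A T.A_pos T.gysin β (fun I => ?_) I
    rw [← ha]
    exact congrFun (sub_eq_zero.1 h3) I

end Pool.Agent.H19.RC
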